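import Mathlib

/-! The push lemma: exactness with level bounds from exactness without. -/

set_option autoImplicit false

namespace Pool.Agent.Helper320_HC

/-- a family of projections indexed by the levels -/
structure LevG {X : Type} [AddCommGroup X] (p : ℤ → X →+ X) : Prop where
  idem : ∀ j x, p j (p j x) = p j x
  orth : ∀ i j x, i ≠ j → p i (p j x) = 0
  bdd : ∀ x, ∃ N : ℕ, ∀ j : ℤ, (N : ℤ) < |j| → p j x = 0
  ext : ∀ x, (∀ j, p j x = 0) → x = 0

/-- `x` lies in the levels `m, ..., n` -/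
def InLev {X : Type} [AddCommGroup X] (p : ℤ → X →+ X) (m n : ℤ) (x : X) : Prop :=
  ∀ j, (j < m ∨ n < j) → p j x = 0

section push
variable {W X Y : Type} [AddCommGroup W] [AddCommGroup X] [AddCommGroup Y]
  {pW : ℤ → W →+ W} {pX : ℤ → X →+ X} {pY : ℤ → Y →+ Y}
  {SW : Set W} {SX : AddSubgroup X} {D B : W →+ X} {D' B' : X →+ Y}

/-- one step at the top -/
theorem push_top (hW : LevG pW) (hX : LevG pX)
    (hSW : ∀ j, ∀ w ∈ SW, pW j w ∈ SW) (hSX : ∀ j, ∀ x ∈ SX, pX j x ∈ SX)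
    (hDS : ∀ w ∈ SW, D w ∈ SX) (hBS : ∀ w ∈ SW, B w ∈ SX)
    (hD : ∀ j w, pX (j + 1) (D w) = D (pW j w)) (hB : ∀ j w, pX j (B w) = B (pW j w))
    (hD' : ∀ j x, pY (j + 1) (D' x) = D' (pX j x)) (hB' : ∀ j x, pY j (B' x) = B' (pX j x))
    (dd : ∀ w ∈ SW, D' (D w - B w) - B' (D w - B w) = 0)
    (exD : ∀ x ∈ SX, D' x = 0 → ∃ w ∈ SW, D w = x)
    (n : ℤ) (k : ℕ) : ∀ x ∈ SX, InLev pY 0 (n + 1) (D' x - B' x) →
      (∀ j, n + k < j → pX j x = 0) →
      ∃ x' ∈ SX, (∀ j, n < j → pX j x' = 0) ∧ D' x' - B' x' = D' x - B' x := by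
  induction k with
  | zero =>
    intro x hx _ hlev
    exact ⟨x, hx, fun j hj => hlev j (by simpa using hj), rfl⟩
  | succ k ih =>
    intro x hx hd hlev
    set N : ℤ := n + (k + 1 : ℕ) with hN
    have h0 : D' (pX N x) = 0 := by
      have h1 := hd (N + 1) (Or.inr (by rw [hN]; push_cast; omega))
      rw [map_sub, hD', hB', hlev (N + 1) (by omega), map_zero, sub_zero] at h1
      exact h1
    obtain ⟨w0, hw0, hw0D⟩ := exD (pX N x) (hSX N x hx) h0
    set w := pW (N - 1) w0 with hw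
    have hwS : w ∈ SW := hSW _ _ hw0
    have hwD : D w = pX N x := by
      rw [hw, ← hD, hw0D, sub_add_cancel, hX.idem]
    have hwlev : ∀ j, j ≠ N - 1 → pW j w = 0 := fun j hj => hW.orth _ _ _ hj
    have hd2 : D' (x - (D w - B w)) - B' (x - (D w - B w)) = D' x - B' x := by
      rw [map_sub D' x, map_sub B' x]
      have := dd w hwS
      rw [sub_eq_zero] at this
      rw [this]
      abel
    obtain ⟨x', hx', h1, h2⟩ := ih (x - (D w - B w))
      (sub_mem hx (sub_mem (hDS w hwS) (hBS w hwS)))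
      (by rw [hd2]; exact hd)
      (by
        intro j hj
        rw [map_sub, map_sub, hwD, hB, hwlev j (by push_cast at hN; omega), map_zero, sub_zero]
        by_cases hjN : j = N
        · rw [hjN, hX.idem, sub_self]
        · rw [hX.orth _ _ _ hjN, sub_zero]
          exact hlev j (by push_cast at hN; omega))
    exact ⟨x', hx', h1, h2.trans hd2⟩

/-- one step at the bottom -/
theorem push_bot (hW : LevG pW) (hX : LevG pX)
    (hSW : ∀ j, ∀ w ∈ SW, pW j w ∈ SW) (hSX : ∀ j, ∀ x ∈ SX, pX j x ∈ SX)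
    (hDS : ∀ w ∈ SW, D w ∈ SX) (hBS : ∀ w ∈ SW, B w ∈ SX)
    (hD : ∀ j w, pX (j + 1) (D w) = D (pW j w)) (hB : ∀ j w, pX j (B w) = B (pW j w))
    (hD' : ∀ j x, pY (j + 1) (D' x) = D' (pX j x)) (hB' : ∀ j x, pY j (B' x) = B' (pX j x))
    (dd : ∀ w ∈ SW, D' (D w - B w) - B' (D w - B w) = 0)
    (exB : ∀ x ∈ SX, B' x = 0 → ∃ w ∈ SW, B w = x)
    (n : ℤ) (hn : 0 ≤ n) (k : ℕ) : ∀ x ∈ SX, InLev pY 0 (n + 1) (D' x - B' x) →
      (∀ j, n < j → pX j x = 0) → (∀ j : ℤ, j < -k → pX j x = 0) →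
      ∃ x' ∈ SX, InLev pX 0 n x' ∧ D' x' - B' x' = D' x - B' x := by
  induction k with
  | zero =>
    intro x hx _ h1 h2
    refine ⟨x, hx, fun j hj => ?_, rfl⟩
    rcases hj with hj | hj
    · exact h2 j (by simpa using hj)
    · exact h1 j hj
  | succ k ih =>
    intro x hx hd htop hlev
    set m : ℤ := -((k + 1 : ℕ) : ℤ) with hm
    have h0 : B' (pX m x) = 0 := by
      have h1 := hd m (Or.inl (by rw [hm]; push_cast; omega))
      have h2 : pY m (D' x) = 0 := by
        have := hD' (m - 1) x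
        rw [sub_add_cancel] at this
        rw [this, hlev (m - 1) (by omega), map_zero]
      rw [map_sub, h2, hB', zero_sub, neg_eq_zero] at h1
      exact h1
    obtain ⟨w0, hw0, hw0B⟩ := exB (pX m x) (hSX m x hx) h0
    set w := pW m w0 with hw
    have hwS : w ∈ SW := hSW _ _ hw0
    have hwB : B w = pX m x := by
      rw [hw, ← hB, hw0B, hX.idem]
    have hwlev : ∀ j, j ≠ m → pW j w = 0 := fun j hj => hW.orth _ _ _ hj
    have hDlev : ∀ j, j ≠ m + 1 → pX j (D w) = 0 := by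
      intro j hj
      have := hD (j - 1) w
      rw [sub_add_cancel] at this
      rw [this, hwlev (j - 1) (by omega), map_zero]
    have hd2 : D' (x + (D w - B w)) - B' (x + (D w - B w)) = D' x - B' x := by
      rw [map_add D' x, map_add B' x]
      have := dd w hwS
      rw [sub_eq_zero] at this
      rw [this]
      abel
    obtain ⟨x', hx', h1, h2⟩ := ih (x + (D w - B w))
      (add_mem hx (sub_mem (hDS w hwS) (hBS w hwS)))
      (by rw [hd2]; exact hd)
      (by
        intro j hj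
        rw [map_add, map_sub, htop j hj, hDlev j (by push_cast at hm; omega), hB,
          hwlev j (by push_cast at hm; omega), map_zero]
        simp)
      (by
        intro j hj
        rw [map_add, map_sub, hDlev j (by push_cast at hm; omega), hwB]
        by_cases hjm : j = m
        · rw [hjm, hX.idem]; abel
        · rw [hX.orth _ _ _ hjm, hlev j (by push_cast at hm; omega)]; simp)
    exact ⟨x', hx', h1, h2.trans hd2⟩

/-- **The push lemma.** -/
theorem push (hW : LevG pW) (hX : LevG pX)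
    (hSW : ∀ j, ∀ w ∈ SW, pW j w ∈ SW) (hSX : ∀ j, ∀ x ∈ SX, pX j x ∈ SX)
    (hDS : ∀ w ∈ SW, D w ∈ SX) (hBS : ∀ w ∈ SW, B w ∈ SX)
    (hD : ∀ j w, pX (j + 1) (D w) = D (pW j w)) (hB : ∀ j w, pX j (B w) = B (pW j w))
    (hD' : ∀ j x, pY (j + 1) (D' x) = D' (pX j x)) (hB' : ∀ j x, pY j (B' x) = B' (pX j x))
    (dd : ∀ w ∈ SW, D' (D w - B w) - B' (D w - B w) = 0)
    (exD : ∀ x ∈ SX, D' x = 0 → ∃ w ∈ SW, D w = x)
    (exB : ∀ x ∈ SX, B' x = 0 → ∃ w ∈ SW, B w = x)
    (n : ℤ) (hn : 0 ≤ n) (x : X) (hx : x ∈ SX) (hd : InLev pY 0 (n + 1) (D' x - B' x)) :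
    ∃ x' ∈ SX, InLev pX 0 n x' ∧ D' x' - B' x' = D' x - B' x := by
  obtain ⟨N, hN⟩ := hX.bdd x
  obtain ⟨x1, hx1, h1, h2⟩ := push_top hW hX hSW hSX hDS hBS hD hB hD' hB' dd exD n N x hx hd
    (fun j hj => hN j (by rw [abs_of_nonneg (by omega)]; omega))
  obtain ⟨M, hM⟩ := hX.bdd x1
  obtain ⟨x2, hx2, h3, h4⟩ := push_bot hW hX hSW hSX hDS hBS hD hB hD' hB' dd exB n hn M x1 hx1
    (by rw [h2]; exact hd) h1
    (fun j hj => hM j (by rw [abs_of_neg (by omega)]; omega))
  exact ⟨x2, hx2, h3, h4.trans h2⟩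

end push

section pi
variable {X : Type} [AddCommGroup X] {p : ℤ → X →+ X}

theorem LevG.pi (h : LevG p) (V : Type) [Fintype V] : LevG (fun j => (p j).compLeft V) where
  idem j x := funext fun v => h.idem j (x v)
  orth i j x hij := funext fun v => h.orth i j (x v) hij
  bdd x := by
    classical
    choose N hN using fun v => h.bdd (x v)
    refine ⟨Finset.univ.sup N, fun j hj => funext fun v => hN v j ?_⟩
    refine lt_of_le_of_lt ?_ hj
    exact_mod_cast Finset.le_sup (f := N) (Finset.mem_univ v)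
  ext x hx := funext fun v => h.ext (x v) fun j => congrFun (hx j) v

end pi

end Pool.Agent.Helper320_HC
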