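import Pool.Agent.Helper320_HC.Push
import Pool.Agent.Y66.HC.Defs
import Pool.Agent.W304.DU.EX

/-! The slab complex, abstract form. -/

set_option autoImplicit false

namespace Pool.Agent.Helper320_HC

open Pool.Agent.W326.DU Pool.Agent.Y66.HC

section
variable {V M : Type} [Fintype V] [AddCommGroup M]

/-- `x ↦ ∑ f_v (x_v)` -/
def E1 (f : V → M →+ M) : (V → M) →+ M where
  toFun x := ∑ v, f v (x v)
  map_zero' := by simp
  map_add' x y := by simp [Finset.sum_add_distrib]

/-- `y ↦ ∑ f_a (y a b)` -/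
def E2 (f : V → M →+ M) : (V → V → M) →+ (V → M) where
  toFun y b := ∑ a, f a (y a b)
  map_zero' := by funext b; simp
  map_add' x y := by funext b; simp [Finset.sum_add_distrib]

/-- `z ↦ ∑ f_a (z a b c)` -/
def E3 (f : V → M →+ M) : (V → V → V → M) →+ (V → V → M) where
  toFun z b c := ∑ a, f a (z a b c)
  map_zero' := by funext b c; simp
  map_add' x y := by funext b c; simp [Finset.sum_add_distrib]

theorem E1_apply (f : V → M →+ M) (x : V → M) : E1 f x = ∑ v, f v (x v) := rfl
theorem E2_apply (f : V → M →+ M) (y : V → V → M) (b : V) : E2 f y b = ∑ a, f a (y a b) := rfl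
theorem E3_apply (f : V → M →+ M) (z : V → V → V → M) (b c : V) :
    E3 f z b c = ∑ a, f a (z a b c) := rfl

/-- the alternating functions as a subgroup -/
def S2 (M : Type) [AddCommGroup M] (ad : V → V → Prop) : AddSubgroup (V → V → M) where
  carrier := {y | IsAlt2 ad Set.univ y}
  zero_mem' := ⟨fun a b => by simp, fun a b _ => rfl⟩
  add_mem' := by
    rintro x y ⟨h1, h2⟩ ⟨h3, h4⟩
    refine ⟨fun a b => ?_, fun a b h => ?_⟩
    · simp only [Pi.add_apply]; rw [h1 a b, h3 a b, neg_add]
    · simp only [Pi.add_apply]; rw [h2 a b h, h4 a b h, add_zero]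
  neg_mem' := by
    rintro x ⟨h1, h2⟩
    refine ⟨fun a b => ?_, fun a b h => ?_⟩
    · simp only [Pi.neg_apply]; rw [h1 a b]
    · simp only [Pi.neg_apply]; rw [h2 a b h, neg_zero]

/-- the alternating functions of three variables as a subgroup -/
def S3 (M : Type) [AddCommGroup M] (ad : V → V → Prop) : AddSubgroup (V → V → V → M) where
  carrier := {y | IsAlt3 ad Set.univ y}
  zero_mem' := ⟨fun a b c => by simp, fun a b c => by simp, fun a b c _ => rfl⟩
  add_mem' := by
    rintro x y ⟨h1, h2, h3⟩ ⟨k1, k2, k3⟩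
    refine ⟨fun a b c => ?_, fun a b c => ?_, fun a b c h => ?_⟩
    · simp only [Pi.add_apply]; rw [h1 a b c, k1 a b c, neg_add]
    · simp only [Pi.add_apply]; rw [h2 a b c, k2 a b c, neg_add]
    · simp only [Pi.add_apply]; rw [h3 a b c h, k3 a b c h, add_zero]
  neg_mem' := by
    rintro x ⟨h1, h2, h3⟩
    refine ⟨fun a b c => ?_, fun a b c => ?_, fun a b c h => ?_⟩
    · simp only [Pi.neg_apply]; rw [h1 a b c]
    · simp only [Pi.neg_apply]; rw [h2 a b c]
    · simp only [Pi.neg_apply]; rw [h3 a b c h, neg_zero]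

theorem mem_S2 {ad : V → V → Prop} {y : V → V → M} : y ∈ S2 M ad ↔ IsAlt2 ad Set.univ y := Iff.rfl
theorem mem_S3 {ad : V → V → Prop} {y : V → V → V → M} :
    y ∈ S3 M ad ↔ IsAlt3 ad Set.univ y := Iff.rfl

end

section main
variable {V M : Type} [Fintype V] [AddCommGroup M] {ad : V → V → Prop}

theorem map_S2 (f : M →+ M) {y : V → V → M} (hy : y ∈ S2 M ad) :
    ((f.compLeft V).compLeft V) y ∈ S2 M ad := by
  obtain ⟨h1, h2⟩ := hy
  refine ⟨fun a b => ?_, fun a b h => ?_⟩
  · change f (y a b) = - f (y b a)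
    rw [h1 a b, map_neg]
  · change f (y a b) = 0
    rw [h2 a b h, map_zero]

theorem map_S3 (f : M →+ M) {y : V → V → V → M} (hy : y ∈ S3 M ad) :
    (((f.compLeft V).compLeft V).compLeft V) y ∈ S3 M ad := by
  obtain ⟨h1, h2, h3⟩ := hy
  refine ⟨fun a b c => ?_, fun a b c => ?_, fun a b c h => ?_⟩
  · change f (y a b c) = - f (y b a c)
    rw [h1 a b c, map_neg]
  · change f (y a b c) = - f (y a c b)
    rw [h2 a b c, map_neg]
  · change f (y a b c) = 0
    rw [h3 a b c h, map_zero]

/-- the last differential lands in the alternating functions -/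
theorem E3_mem (symm : ∀ a b, ad a b → ad b a) (f : V → M →+ M) {z : V → V → V → M}
    (hz : z ∈ S3 M ad) : E3 f z ∈ S2 M ad := by
  obtain ⟨h1, h2, h3⟩ := hz
  refine ⟨fun a b => ?_, fun a b h => ?_⟩
  · rw [E3_apply, E3_apply, ← Finset.sum_neg_distrib]
    refine Finset.sum_congr rfl fun c _ => ?_
    rw [h2 c a b, map_neg]
  · rw [E3_apply]
    refine Finset.sum_eq_zero fun c _ => ?_
    rw [h3 c a b (fun h4 => h ⟨trivial, trivial, h4.2.2.2.2.1⟩), map_zero]

variable (r : V → M ≃+ M) (hcomm : ∀ a b, ad a b → ∀ x, r a (r b x) = r b (r a x))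

include hcomm in
theorem comm_si {a b : V} (h : ad a b) (x : M) : r a ((r b).symm x) = (r b).symm (r a x) := by
  apply (r b).injective
  rw [← hcomm a b h, AddEquiv.apply_symm_apply, AddEquiv.apply_symm_apply]

include hcomm in
theorem comm_ii {a b : V} (h : ad a b) (x : M) :
    (r a).symm ((r b).symm x) = (r b).symm ((r a).symm x) := by
  apply (r a).injective
  rw [AddEquiv.apply_symm_apply, comm_si r hcomm h, AddEquiv.apply_symm_apply]

include hcomm in
theorem exD1 (symm : ∀ a b, ad a b → ad b a) (hac : Acyc ad) (x : V → M)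
    (h : E1 (fun v => (r v : M →+ M)) x = 0) :
    ∃ y ∈ S2 M ad, E2 (fun v => (r v : M →+ M)) y = x := by
  obtain ⟨y, hy, hyx⟩ := hac.ac1 M (fun v => r v (x v)) h
  refine ⟨fun a b => (r a).symm ((r b).symm (y a b)), ⟨fun a b => ?_, fun a b hab => ?_⟩, ?_⟩
  · beta_reduce
    by_cases hab : ad a b
    · rw [comm_ii r hcomm hab, hy.1 a b, map_neg, map_neg]
    · rw [hy.2 a b (fun h => hab h.2.2), hy.2 b a (fun h => hab (symm _ _ h.2.2))]; simp
  · beta_reduce
    rw [hy.2 a b hab]; simp
  · funext b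
    rw [E2_apply]
    have : ∀ a, (r a : M →+ M) ((r a).symm ((r b).symm (y a b))) = (r b).symm (y a b) :=
      fun a => AddEquiv.apply_symm_apply _ _
    simp only [this]
    rw [← map_sum, ← hyx b, AddEquiv.symm_apply_apply]

include hcomm in
theorem exD2 (symm : ∀ a b, ad a b → ad b a) (hac : Acyc ad) (y : V → V → M)
    (hy : y ∈ S2 M ad) (h : E2 (fun v => (r v : M →+ M)) y = 0) :
    ∃ z ∈ S3 M ad, E3 (fun v => (r v : M →+ M)) z = y := by
  have hz0 : ∀ (a b c : V), ¬ (ad a b ∧ ad b c ∧ ad a c) → ¬ (a ∈ (Set.univ : Set V) ∧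
      b ∈ (Set.univ : Set V) ∧ c ∈ (Set.univ : Set V) ∧ ad a b ∧ ad b c ∧ ad a c) :=
    fun a b c h h' => h h'.2.2.2
  obtain ⟨z, hz, hzy⟩ := hac.ac2 M (fun a b => r a (r b (y a b))) (by
    refine ⟨fun a b => ?_, fun a b hab => ?_⟩
    · beta_reduce
      by_cases hab : ad a b
      · rw [hcomm a b hab, hy.1 a b, map_neg, map_neg]
      · rw [hy.2 a b (fun h => hab h.2.2), hy.2 b a (fun h => hab (symm _ _ h.2.2))]; simp
    · beta_reduce
      rw [hy.2 a b hab]; simp) (by
    intro b
    have e : ∀ a, r a (r b (y a b)) = r b (r a (y a b)) := by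
      intro a
      by_cases hab : ad a b
      · exact hcomm a b hab _
      · rw [hy.2 a b (fun h => hab h.2.2)]; simp
    simp only [e]
    rw [← map_sum]
    have := congrFun h b
    rw [E2_apply] at this
    change ∑ a, r a (y a b) = 0 at this
    rw [this, map_zero])
  refine ⟨fun a b c => (r a).symm ((r b).symm ((r c).symm (z a b c))), ⟨fun a b c => ?_,
    fun a b c => ?_, fun a b c habc => ?_⟩, ?_⟩
  · beta_reduce
    by_cases habc : ad a b ∧ ad b c ∧ ad a c
    · rw [comm_ii r hcomm habc.1, hz.1 a b c]; simp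
    · rw [hz.2.2 a b c (hz0 a b c habc), hz.2.2 b a c (hz0 b a c (fun h =>
        habc ⟨symm _ _ h.1, h.2.2, h.2.1⟩))]; simp
  · beta_reduce
    by_cases habc : ad a b ∧ ad b c ∧ ad a c
    · rw [comm_ii r hcomm habc.2.1, hz.2.1 a b c]; simp
    · rw [hz.2.2 a b c (hz0 a b c habc), hz.2.2 a c b (hz0 a c b (fun h =>
        habc ⟨h.2.2, symm _ _ h.2.1, h.1⟩))]; simp
  · beta_reduce
    rw [hz.2.2 a b c habc]; simp
  · funext b c
    rw [E3_apply]
    have : ∀ a, (r a : M →+ M) ((r a).symm ((r b).symm ((r c).symm (z a b c))))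
        = (r b).symm ((r c).symm (z a b c)) := fun a => AddEquiv.apply_symm_apply _ _
    simp only [this]
    rw [← map_sum, ← map_sum, ← hzy b c]
    by_cases hbc : ad b c
    · rw [hcomm b c hbc, AddEquiv.symm_apply_apply, AddEquiv.symm_apply_apply]
    · rw [hy.2 b c (fun h => hbc h.2.2)]; simp

include hcomm in
theorem exD3 (symm : ∀ a b, ad a b → ad b a) (hac : Acyc ad) (z : V → V → V → M)
    (hz : z ∈ S3 M ad) (h : E3 (fun v => (r v : M →+ M)) z = 0) : z = 0 := by
  have hz0 : ∀ (a b c : V), ¬ (ad a b ∧ ad b c ∧ ad a c) → ¬ (a ∈ (Set.univ : Set V) ∧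
      b ∈ (Set.univ : Set V) ∧ c ∈ (Set.univ : Set V) ∧ ad a b ∧ ad b c ∧ ad a c) :=
    fun a b c h h' => h h'.2.2.2
  have key := hac.ac3 M (fun a b c => r a (r b (r c (z a b c)))) (by
    refine ⟨fun a b c => ?_, fun a b c => ?_, fun a b c habc => ?_⟩
    · beta_reduce
      by_cases habc : ad a b ∧ ad b c ∧ ad a c
      · rw [hcomm _ _ habc.1, hz.1 a b c]; simp
      · rw [hz.2.2 a b c (hz0 a b c habc), hz.2.2 b a c (hz0 b a c (fun h =>
          habc ⟨symm _ _ h.1, h.2.2, h.2.1⟩))]; simp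
    · beta_reduce
      by_cases habc : ad a b ∧ ad b c ∧ ad a c
      · rw [hcomm _ _ habc.2.1, hz.2.1 a b c]; simp
      · rw [hz.2.2 a b c (hz0 a b c habc), hz.2.2 a c b (hz0 a c b (fun h =>
          habc ⟨h.2.2, symm _ _ h.2.1, h.1⟩))]; simp
    · beta_reduce
      rw [hz.2.2 a b c habc]; simp) (by
    intro b c
    have e : ∀ a, r a (r b (r c (z a b c))) = r b (r c (r a (z a b c))) := by
      intro a
      by_cases habc : ad a b ∧ ad b c ∧ ad a c
      · rw [hcomm a b habc.1, hcomm a c habc.2.2]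
      · rw [hz.2.2 a b c (hz0 a b c habc)]; simp
    simp only [e]
    rw [← map_sum, ← map_sum]
    have := congrFun (congrFun h b) c
    rw [E3_apply] at this
    change ∑ a, r a (z a b c) = 0 at this
    rw [this, map_zero, map_zero])
  funext a b c
  have := key a b c
  have h1 := (r a).injective (this.trans (map_zero (r a)).symm)
  have h2 := (r b).injective (h1.trans (map_zero (r b)).symm)
  exact (r c).injective (h2.trans (map_zero (r c)).symm)

theorem exB1 (hac : Acyc ad) (x : V → M)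
    (h : E1 (fun _ => AddMonoidHom.id M) x = 0) :
    ∃ y ∈ S2 M ad, E2 (fun _ => AddMonoidHom.id M) y = x := by
  obtain ⟨y, hy, hyx⟩ := hac.ac1 M x h
  exact ⟨y, hy, funext fun b => (hyx b).symm⟩

theorem exB2 (hac : Acyc ad) (y : V → V → M) (hy : y ∈ S2 M ad)
    (h : E2 (fun _ => AddMonoidHom.id M) y = 0) :
    ∃ z ∈ S3 M ad, E3 (fun _ => AddMonoidHom.id M) z = y := by
  obtain ⟨z, hz, hzy⟩ := hac.ac2 M y hy (fun b => congrFun h b)
  exact ⟨z, hz, funext fun b => funext fun c => (hzy b c).symm⟩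

theorem exB3 (hac : Acyc ad) (z : V → V → V → M) (hz : z ∈ S3 M ad)
    (h : E3 (fun _ => AddMonoidHom.id M) z = 0) : z = 0 := by
  have := hac.ac3 M z hz (fun b c => congrFun (congrFun h b) c)
  funext a b c
  exact this a b c

theorem E1_sub (R : V → M →+ M) (hR : ∀ v x, R v x = r v x - x) (x : V → M) :
    E1 (fun v => (r v : M →+ M)) x - E1 (fun _ => AddMonoidHom.id M) x = ∑ v, R v (x v) := by
  simp only [E1_apply, ← Finset.sum_sub_distrib, hR]
  rfl

theorem E2_sub (R : V → M →+ M) (hR : ∀ v x, R v x = r v x - x) (y : V → V → M) :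
    E2 (fun v => (r v : M →+ M)) y - E2 (fun _ => AddMonoidHom.id M) y
      = fun b => ∑ a, R a (y a b) := by
  funext b
  simp only [Pi.sub_apply, E2_apply, ← Finset.sum_sub_distrib, hR]
  rfl

theorem E3_sub (R : V → M →+ M) (hR : ∀ v x, R v x = r v x - x) (z : V → V → V → M) :
    E3 (fun v => (r v : M →+ M)) z - E3 (fun _ => AddMonoidHom.id M) z
      = fun b c => ∑ a, R a (z a b c) := by
  funext b c
  simp only [Pi.sub_apply, E3_apply, ← Finset.sum_sub_distrib, hR]
  rfl

variable {p : ℤ → M →+ M} (hp : LevG p) (hr : ∀ v j x, p (j + 1) (r v x) = r v (p j x))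
  {R : V → M →+ M} (hR : ∀ v x, R v x = r v x - x) (hreg : Reg ad R)
  (symm : ∀ a b, ad a b → ad b a) (irr : ∀ a, ¬ ad a a) (hac : Acyc ad)

include hcomm hp hr hR hreg symm irr hac

theorem slab1 (n : ℤ) (hn : 0 ≤ n) (x : V → M) (hx : InLev p 0 (n + 1) (∑ v, R v (x v))) :
    ∃ y : V → M, (∀ v, InLev p 0 n (y v)) ∧ ∑ v, R v (y v) = ∑ v, R v (x v) := by
  obtain ⟨x', -, h1, h2⟩ := push (W := V → V → M) (X := V → M) (Y := M)
    (pW := fun j => ((p j).compLeft V).compLeft V) (pX := fun j => (p j).compLeft V) (pY := p)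
    (SW := (S2 M ad : Set (V → V → M))) (SX := ⊤)
    (D := E2 (fun v => (r v : M →+ M))) (B := E2 (fun _ => AddMonoidHom.id M))
    (D' := E1 (fun v => (r v : M →+ M))) (B' := E1 (fun _ => AddMonoidHom.id M))
    ((hp.pi V).pi V) (hp.pi V) (fun j w hw => map_S2 _ hw) (fun _ _ _ => trivial)
    (fun _ _ => trivial) (fun _ _ => trivial)
    (by
      intro j w
      funext b
      change p (j + 1) (∑ a, r a (w a b)) = ∑ a, r a (p j (w a b))
      rw [map_sum]
      exact Finset.sum_congr rfl fun a _ => hr a j _)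
    (by
      intro j w
      funext b
      change p j (∑ a, w a b) = ∑ a, p j (w a b)
      rw [map_sum])
    (by
      intro j w
      change p (j + 1) (∑ a, r a (w a)) = ∑ a, r a (p j (w a))
      rw [map_sum]
      exact Finset.sum_congr rfl fun a _ => hr a j _)
    (by
      intro j w
      change p j (∑ a, w a) = ∑ a, p j (w a)
      rw [map_sum])
    (by
      intro w hw
      rw [E2_sub r R hR, E1_sub r R hR]
      exact Pool.Agent.W304.DU.dd R hreg irr w hw.1 (fun a b hab => hw.2 a b (fun h => hab h.2.2)))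
    (fun x _ h => exD1 r hcomm symm hac x h)
    (fun x _ h => exB1 hac x h) n hn x trivial (by rw [E1_sub r R hR]; exact hx)
  rw [E1_sub r R hR, E1_sub r R hR] at h2
  exact ⟨x', fun v j hj => congrFun (h1 j hj) v, h2⟩

theorem slab2 (n : ℤ) (hn : 0 ≤ n) (y : V → V → M) (hy : IsAlt2 ad Set.univ y)
    (hx : ∀ b, InLev p 0 (n + 1) (∑ a, R a (y a b))) :
    ∃ y' : V → V → M, IsAlt2 ad Set.univ y' ∧ (∀ a b, InLev p 0 n (y' a b)) ∧
      ∀ b, ∑ a, R a (y' a b) = ∑ a, R a (y a b) := by
  obtain ⟨x', h0, h1, h2⟩ := push (W := V → V → V → M) (X := V → V → M) (Y := V → M)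
    (pW := fun j => (((p j).compLeft V).compLeft V).compLeft V)
    (pX := fun j => ((p j).compLeft V).compLeft V) (pY := fun j => (p j).compLeft V)
    (SW := (S3 M ad : Set (V → V → V → M))) (SX := S2 M ad)
    (D := E3 (fun v => (r v : M →+ M))) (B := E3 (fun _ => AddMonoidHom.id M))
    (D' := E2 (fun v => (r v : M →+ M))) (B' := E2 (fun _ => AddMonoidHom.id M))
    (((hp.pi V).pi V).pi V) ((hp.pi V).pi V) (fun j w hw => map_S3 _ hw)
    (fun j w hw => map_S2 _ hw)
    (fun _ hw => E3_mem symm _ hw) (fun _ hw => E3_mem symm _ hw)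
    (by
      intro j w
      funext b c
      change p (j + 1) (∑ a, r a (w a b c)) = ∑ a, r a (p j (w a b c))
      rw [map_sum]
      exact Finset.sum_congr rfl fun a _ => hr a j _)
    (by
      intro j w
      funext b c
      change p j (∑ a, w a b c) = ∑ a, p j (w a b c)
      rw [map_sum])
    (by
      intro j w
      funext b
      change p (j + 1) (∑ a, r a (w a b)) = ∑ a, r a (p j (w a b))
      rw [map_sum]
      exact Finset.sum_congr rfl fun a _ => hr a j _)
    (by
      intro j w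
      funext b
      change p j (∑ a, w a b) = ∑ a, p j (w a b)
      rw [map_sum])
    (by
      intro w hw
      rw [E3_sub r R hR, E2_sub r R hR]
      funext c
      exact Pool.Agent.W304.DU.dd R hreg irr (fun a b => w a b c) (fun a b => hw.1 a b c)
        (fun a b hab => hw.2.2 a b c (fun h => hab h.2.2.2.1)))
    (fun x hx h => exD2 r hcomm symm hac x hx h)
    (fun x hx h => exB2 hac x hx h) n hn y hy (by
      rw [E2_sub r R hR]
      intro j hj
      funext b
      exact hx b j hj)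
  rw [E2_sub r R hR, E2_sub r R hR] at h2
  exact ⟨x', h0, fun a b j hj => congrFun (congrFun (h1 j hj) a) b, fun b => congrFun h2 b⟩

theorem slab3 (n : ℤ) (hn : 0 ≤ n) (z : V → V → V → M) (hz : IsAlt3 ad Set.univ z)
    (hx : ∀ b c, InLev p 0 (n + 1) (∑ a, R a (z a b c))) :
    ∃ z' : V → V → V → M, IsAlt3 ad Set.univ z' ∧ (∀ a b c, InLev p 0 n (z' a b c)) ∧
      ∀ b c, ∑ a, R a (z' a b c) = ∑ a, R a (z a b c) := by
  obtain ⟨x', h0, h1, h2⟩ := push (W := V → V → V → M) (X := V → V → V → M) (Y := V → V → M)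
    (pW := fun j => (((p j).compLeft V).compLeft V).compLeft V)
    (pX := fun j => (((p j).compLeft V).compLeft V).compLeft V)
    (pY := fun j => ((p j).compLeft V).compLeft V)
    (SW := {0}) (SX := S3 M ad)
    (D := 0) (B := 0)
    (D' := E3 (fun v => (r v : M →+ M))) (B' := E3 (fun _ => AddMonoidHom.id M))
    (((hp.pi V).pi V).pi V) (((hp.pi V).pi V).pi V) (fun j w hw => by
      rw [Set.mem_singleton_iff] at hw ⊢
      rw [hw, map_zero])
    (fun j w hw => map_S3 _ hw)
    (fun _ _ => zero_mem _) (fun _ _ => zero_mem _)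
    (by
      intro j w
      simp only [AddMonoidHom.zero_apply, map_zero])
    (by
      intro j w
      simp only [AddMonoidHom.zero_apply, map_zero])
    (by
      intro j w
      funext b c
      change p (j + 1) (∑ a, r a (w a b c)) = ∑ a, r a (p j (w a b c))
      rw [map_sum]
      exact Finset.sum_congr rfl fun a _ => hr a j _)
    (by
      intro j w
      funext b c
      change p j (∑ a, w a b c) = ∑ a, p j (w a b c)
      rw [map_sum])
    (by
      intro w _
      simp only [AddMonoidHom.zero_apply, sub_self, map_zero])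
    (fun x hx h => ⟨0, rfl, (exD3 r hcomm symm hac x hx h).symm⟩)
    (fun x hx h => ⟨0, rfl, (exB3 hac x hx h).symm⟩) n hn z hz (by
      rw [E3_sub r R hR]
      intro j hj
      funext b c
      exact hx b c j hj)
  rw [E3_sub r R hR, E3_sub r R hR] at h2
  exact ⟨x', h0, fun a b c j hj => congrFun (congrFun (congrFun (h1 j hj) a) b) c,
    fun b c => congrFun (congrFun h2 b) c⟩

end main

end Pool.Agent.Helper320_HC
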