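import Pool.Agent.Helper320_HC.Rx
import Pool.Agent.Helper320_HC.SlabAbs
import Pool.Agent.W326.DU.Aug

/-! Exactness of the slab complex (`PropSlab`). -/

set_option autoImplicit false

namespace Pool.Agent.Helper320_HC

open Pool.Agent.W326.DU Pool.Agent.Y66.HC Pool.Agent.Helper379_HC

section pr
variable {G : Type} [Group G] (χ : G →* Multiplicative ℤ)

open Classical in
/-- the projection to the level `j` -/
noncomputable def pr (j : ℤ) : ZG G →+ ZG G :=
  (MonoidAlgebra.coeffAddEquiv.symm.toAddMonoidHom.comp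
    (Finsupp.filterAddHom (fun g : G => Multiplicative.toAdd (χ g) = j))).comp
    MonoidAlgebra.coeffAddEquiv.toAddMonoidHom

open Classical in
theorem pr_coeff (j : ℤ) (x : ZG G) (g : G) :
    (pr χ j x).coeff g = if Multiplicative.toAdd (χ g) = j then x.coeff g else 0 := by
  change (Finsupp.filter (fun g : G => Multiplicative.toAdd (χ g) = j) x.coeff) g = _
  rw [Finsupp.filter_apply]

theorem pr_levG : LevG (pr χ) where
  idem j x := by
    apply MonoidAlgebra.ext
    ext g
    rw [pr_coeff, pr_coeff]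
    split_ifs <;> rfl
  orth i j x hij := by
    apply MonoidAlgebra.ext
    ext g
    rw [pr_coeff, pr_coeff, MonoidAlgebra.coeff_zero, Finsupp.zero_apply]
    split_ifs with h1 h2
    · exact absurd (h1.symm.trans h2) hij
    · rfl
    · rfl
  bdd x := by
    classical
    refine ⟨x.coeff.support.sup (fun g => (Multiplicative.toAdd (χ g)).natAbs), fun j hj => ?_⟩
    apply MonoidAlgebra.ext
    ext g
    rw [pr_coeff, MonoidAlgebra.coeff_zero, Finsupp.zero_apply]
    split_ifs with h1
    · by_contra hne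
      have h2 := Finset.le_sup (f := fun g => (Multiplicative.toAdd (χ g)).natAbs)
        (Finsupp.mem_support_iff.2 hne)
      rw [h1] at h2
      have h3 : (j.natAbs : ℤ) = |j| := Int.natCast_natAbs j
      omega
    · rfl
  ext x hx := by
    apply MonoidAlgebra.ext
    ext g
    have h := congrArg (fun y : ZG G => y.coeff g) (hx (Multiplicative.toAdd (χ g)))
    simp only [pr_coeff] at h
    exact h

theorem inLev_iff (n : ℤ) (x : ZG G) :
    InLev (pr χ) 0 n x ↔ Lev χ n x := by
  constructor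
  · intro h g hg
    by_contra hcon
    have h1 := h (Multiplicative.toAdd (χ g)) (by omega)
    have h2 := congrArg (fun y : ZG G => y.coeff g) h1
    simp only [pr_coeff] at h2
    exact hg h2
  · intro h j hj
    apply MonoidAlgebra.ext
    ext g
    rw [pr_coeff, MonoidAlgebra.coeff_zero, Finsupp.zero_apply]
    split_ifs with h1
    · by_contra hne
      have := h g hne
      omega
    · rfl

/-- right multiplication by a group element -/
noncomputable def rE (s : G) : ZG G ≃+ ZG G where
  toFun x := x * MonoidAlgebra.of ℤ G s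
  invFun x := x * MonoidAlgebra.of ℤ G s⁻¹
  left_inv x := by
    dsimp only
    rw [mul_assoc, ← map_mul, mul_inv_cancel, map_one, mul_one]
  right_inv x := by
    dsimp only
    rw [mul_assoc, ← map_mul, inv_mul_cancel, map_one, mul_one]
  map_add' x y := add_mul _ _ _

theorem rE_apply (s : G) (x : ZG G) : rE s x = x * MonoidAlgebra.of ℤ G s := rfl

theorem pr_rE (s : G) (hs : χ s = Multiplicative.ofAdd 1) (j : ℤ) (x : ZG G) :
    pr χ (j + 1) (rE s x) = rE s (pr χ j x) := by
  apply MonoidAlgebra.ext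
  ext g
  rw [pr_coeff, rE_apply, rE_apply, MonoidAlgebra.of_apply,
    MonoidAlgebra.coeff_mul_single_apply, MonoidAlgebra.coeff_mul_single_apply, pr_coeff,
    mul_one, mul_one]
  have h1 : Multiplicative.toAdd (χ (g * s⁻¹)) = Multiplicative.toAdd (χ g) - 1 := by
    rw [map_mul, map_inv, hs, toAdd_mul, toAdd_inv, toAdd_ofAdd]
    rfl
  rw [h1]
  by_cases h : Multiplicative.toAdd (χ g) = j + 1
  · rw [if_pos h, if_pos (by omega)]
  · rw [if_neg h, if_neg (by omega)]

end pr

/-- TARGET 2 -/
theorem slab : PropSlab := by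
  intro V _ ad hG χ hχ
  have hreg : Reg ad (Rg ad) := rx V ad hG.symm hG.irr
  have hR : ∀ v x, Rg ad v x = rE (gen ad v) x - x := by
    intro v x
    change x * (MonoidAlgebra.of ℤ (RAAG ad) (gen ad v) - 1) = _
    rw [mul_sub, mul_one, rE_apply]
  have hcomm : ∀ a b, ad a b → ∀ x : ZG (RAAG ad),
      rE (gen ad a) (rE (gen ad b) x) = rE (gen ad b) (rE (gen ad a) x) := by
    intro a b hab x
    rw [rE_apply, rE_apply, rE_apply, rE_apply, mul_assoc, mul_assoc, ← map_mul, ← map_mul,
      Pool.Agent.W304.DU.RG.gen_comm ad a b hab]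
  have hr : ∀ v j (x : ZG (RAAG ad)), pr χ (j + 1) (rE (gen ad v) x)
      = rE (gen ad v) (pr χ j x) := fun v j x => pr_rE χ _ (hχ v) j x
  obtain ⟨ex1, ex2, ex3⟩ := Pool.Agent.W304.DU.th V (ZG (RAAG ad)) ad (Rg ad) hG.symm hG.irr
    hG.k4 hreg Finset.univ
  rw [Finset.coe_univ] at ex1 ex2 ex3
  refine ⟨?_, ?_, ?_⟩
  · intro x hx hax
    have h1 : x ∈ IL ℤ (gen ad '' Set.univ) := by
      rw [Set.image_univ]
      exact aug_th (RAAG ad) _ (Pool.Agent.W490.DU.closure_gen ad) x hax
    rw [← mem_Im_iff'] at h1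
    obtain ⟨y, -, hy⟩ := Pool.Agent.W304.DU.mem_Im _ _ _ h1
    have hy' : x = ∑ v, Rg ad v (y v) := hy
    obtain ⟨y', h2, h3⟩ := slab1 (fun v => rE (gen ad v)) hcomm (pr_levG χ) hr hR hreg hG.symm
      hG.irr hG.acyc 2 (by norm_num) y (by rw [← hy', inLev_iff]; exact hx)
    exact ⟨y', fun v => (inLev_iff χ 2 _).1 (h2 v), hy'.trans h3.symm⟩
  · intro y hy hsum
    obtain ⟨z, hz, hzy⟩ := ex1 y (fun v hv => absurd (Finset.mem_univ v) hv) hsum
    obtain ⟨z', h1, h2, h3⟩ := slab2 (fun v => rE (gen ad v)) hcomm (pr_levG χ) hr hR hreg hG.symm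
      hG.irr hG.acyc 1 (by norm_num) z hz (by
        intro b
        rw [← hzy b, inLev_iff]
        exact hy b)
    exact ⟨z', h1, fun a b => (inLev_iff χ 1 _).1 (h2 a b), fun b => (hzy b).trans (h3 b).symm⟩
  · intro z hz hlev hsum
    obtain ⟨w, hw, hwz⟩ := ex2 z hz hsum
    obtain ⟨w', h1, h2, h3⟩ := slab3 (fun v => rE (gen ad v)) hcomm (pr_levG χ) hr hR hreg hG.symm
      hG.irr hG.acyc 0 le_rfl w hw (by
        intro b c
        rw [← hwz b c, inLev_iff]
        exact hlev b c)
    exact ⟨w', h1, fun a b c => (inLev_iff χ 0 _).1 (h2 a b c),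
      fun b c => (hwz b c).trans (h3 b c).symm⟩

end Pool.Agent.Helper320_HC
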